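import Pool.Agent.Helper40.IM.Core

/-!
# Immersions of the hypersurfaces `a(w) g(z) + f(z) = 1`, `g`, `f` semi-invariants of a flow
-/

open MvPolynomial Pool.Agent.Helper40.IM

namespace Pool.Agent.Helper72.CF

/-- The analytic core, for `a(w) g + f`. -/
theorem core3 {n : ℕ} (a : ℂ → ℂ) (ha : Differentiable ℂ a)
    (φ : ℂ → (Fin n → ℂ) → (Fin n → ℂ)) (hφ : IsFlow φ)
    (g f : (Fin n → ℂ) → ℂ) (hg : Differentiable ℂ g) (hf : Differentiable ℂ f) (p q : ℝ)
    (hgφ : ∀ t z, g (φ t z) = Complex.exp (p * t) * g z)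
    (hfφ : ∀ t z, f (φ t z) = Complex.exp (q * t) * f z)
    (hH : ∃ H : ℂ × ℂ → ℂ, Differentiable ℂ H ∧
      ∀ w g : ℂ, deriv a w * g + fderiv ℂ H (w, g)
        (-((q : ℂ) - (q - p) * (a w * g)), (p : ℂ) * deriv a w * g ^ 2) ≠ 0)
    (E : (Fin (n + 1) → ℂ) → ℂ)
    (hE : ∀ w, E w = a (w 0) * g (fun i => w (Fin.succ i)) + f (fun i => w (Fin.succ i))) :
    Differentiable ℂ E ∧ ∃ Φ : (Fin (n + 1) → ℂ) → (Fin n → ℂ), Differentiable ℂ Φ ∧
      ∀ w, E w = 1 → ∀ v, fderiv ℂ E w v = 0 → fderiv ℂ Φ w v = 0 → v = 0 := by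
  obtain ⟨H, hHd, hne⟩ := hH
  let π : (Fin (n + 1) → ℂ) →L[ℂ] ℂ := ContinuousLinearMap.proj 0
  let τ : (Fin (n + 1) → ℂ) →L[ℂ] (Fin n → ℂ) :=
    ContinuousLinearMap.pi fun i => ContinuousLinearMap.proj (Fin.succ i)
  have hE' : E = fun w => a (π w) * g (τ w) + f (τ w) := by
    ext w
    exact hE w
  have gτ : ∀ w, HasFDerivAt (fun w => g (τ w)) ((fderiv ℂ g (τ w)).comp τ) w := fun w =>
    (hg (τ w)).hasFDerivAt.comp w τ.hasFDerivAt
  have fτ : ∀ w, HasFDerivAt (fun w => f (τ w)) ((fderiv ℂ f (τ w)).comp τ) w := fun w =>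
    (hf (τ w)).hasFDerivAt.comp w τ.hasFDerivAt
  have aπ : ∀ w, HasFDerivAt (fun w => a (π w)) (deriv a (π w) • π) w := fun w =>
    (ha (π w)).hasDerivAt.comp_hasFDerivAt w π.hasFDerivAt
  have hEd : ∀ w, HasFDerivAt E
      ((a (π w) • (fderiv ℂ g (τ w)).comp τ + g (τ w) • (deriv a (π w) • π)) +
        (fderiv ℂ f (τ w)).comp τ) w := by
    intro w
    rw [hE']
    exact ((aπ w).fun_mul (gτ w)).add (fτ w)
  have hEv : ∀ w v, fderiv ℂ E w v = a (π w) * fderiv ℂ g (τ w) (τ v) +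
      g (τ w) * (deriv a (π w) * π v) + fderiv ℂ f (τ w) (τ v) := by
    intro w v
    rw [(hEd w).fderiv]
    simp
  refine ⟨fun w => (hEd w).differentiableAt, ?_⟩
  let h : (Fin (n + 1) → ℂ) → ℂ := fun w => H (π w, g (τ w))
  have hh : ∀ w, HasFDerivAt h
      ((fderiv ℂ H (π w, g (τ w))).comp (π.prod ((fderiv ℂ g (τ w)).comp τ))) w := by
    intro w
    exact HasFDerivAt.comp (g := H) w (hHd _).hasFDerivAt (π.hasFDerivAt.prodMk (gτ w))
  let Φ : (Fin (n + 1) → ℂ) → (Fin n → ℂ) := fun w => φ (h w) (τ w)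
  have hΦ : Differentiable ℂ Φ := by
    have h1 : Differentiable ℂ fun w : Fin (n + 1) → ℂ => (h w, τ w) := fun w =>
      ((hh w).prodMk τ.hasFDerivAt).differentiableAt
    exact hφ.diff.comp h1
  refine ⟨Φ, hΦ, fun w hw v hv hfv => ?_⟩
  set θ : ℂ := fderiv ℂ h w v with hθ
  -- general: a semi-invariant
  have semi : ∀ (G : (Fin n → ℂ) → ℂ) (hG : Differentiable ℂ G) (ρ : ℝ)
      (hGφ : ∀ t z, G (φ t z) = Complex.exp (ρ * t) * G z),
      fderiv ℂ G (τ w) (τ v) = - ((ρ : ℂ) * G (τ w) * θ) := by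
    intro G hG ρ hGφ
    have hgf : ∀ w, G (Φ w) = Complex.exp (ρ * h w) * G (τ w) := fun w => hGφ _ _
    have Gτ : HasFDerivAt (fun w => G (τ w)) ((fderiv ℂ G (τ w)).comp τ) w :=
      (hG (τ w)).hasFDerivAt.comp w τ.hasFDerivAt
    have hgd : HasFDerivAt (fun w => G (Φ w))
        (Complex.exp (ρ * h w) • (fderiv ℂ G (τ w)).comp τ +
          G (τ w) • (Complex.exp (ρ * h w) • ((ρ : ℂ) • fderiv ℂ h w))) w := by
      rw [funext hgf]
      have h1 : HasFDerivAt (fun w => (ρ : ℂ) * h w) ((ρ : ℂ) • fderiv ℂ h w) w :=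
        ((hh w).differentiableAt.hasFDerivAt).const_mul _
      exact h1.cexp.fun_mul Gτ
    have h1 : fderiv ℂ (fun w => G (Φ w)) w v = 0 := by
      have h2 : HasFDerivAt (fun w => G (Φ w)) ((fderiv ℂ G (Φ w)).comp (fderiv ℂ Φ w)) w :=
        (hG (Φ w)).hasFDerivAt.comp w (hΦ w).hasFDerivAt
      rw [h2.fderiv, ContinuousLinearMap.comp_apply, hfv, map_zero]
    rw [hgd.fderiv] at h1
    simp only [add_apply, smul_apply,
      ContinuousLinearMap.comp_apply, smul_eq_mul] at h1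
    rw [← hθ] at h1
    have h3 : Complex.exp (ρ * h w) * (fderiv ℂ G (τ w) (τ v) + (ρ : ℂ) * G (τ w) * θ) = 0 := by
      linear_combination h1
    rcases mul_eq_zero.1 h3 with h4 | h4
    · exact absurd h4 (Complex.exp_ne_zero _)
    · linear_combination h4
  have hgv := semi g hg p hgφ
  have hfv' := semi f hf q hfφ
  have hX : a (π w) * g (τ w) + f (τ w) = 1 := by
    rw [hE'] at hw
    exact hw
  set G : ℂ := g (τ w) with hGdef
  have hff : f (τ w) = 1 - a (π w) * G := by linear_combination hX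
  -- the equation of the tangent space
  have hv1 : G * deriv a (π w) * π v = θ * ((q : ℂ) - (q - p) * (a (π w) * G)) := by
    rw [hEv, hgv, hfv', hff] at hv
    linear_combination hv
  have hθ2 : fderiv ℂ h w v = fderiv ℂ H (π w, G) (π v, fderiv ℂ g (τ w) (τ v)) := by
    rw [(hh w).fderiv, ContinuousLinearMap.comp_apply, ContinuousLinearMap.prod_apply,
      ContinuousLinearMap.comp_apply]
  rw [← hθ, hgv] at hθ2
  have hlin : ∀ a b : ℂ, fderiv ℂ H (π w, G) (a, b) =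
      a * fderiv ℂ H (π w, G) (1, 0) + b * fderiv ℂ H (π w, G) (0, 1) := by
    intro a b
    have : ((a, b) : ℂ × ℂ) = a • ((1 : ℂ), (0 : ℂ)) + b • ((0 : ℂ), (1 : ℂ)) := by
      ext <;> simp
    rw [this, map_add, map_smul, map_smul, smul_eq_mul, smul_eq_mul]
  rw [hlin] at hθ2
  have hN := hne (π w) G
  rw [hlin] at hN
  set A : ℂ := fderiv ℂ H (π w, G) (1, 0)
  set B : ℂ := fderiv ℂ H (π w, G) (0, 1)
  have hθ0 : θ = 0 := by
    have h1 : θ * (deriv a (π w) * G + (-((q : ℂ) - (q - p) * (a (π w) * G)) * A +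
        (p : ℂ) * deriv a (π w) * G ^ 2 * B)) = 0 := by
      linear_combination (G * deriv a (π w)) * hθ2 + A * hv1
    exact (mul_eq_zero.1 h1).resolve_right hN
  have hv0 : π v = 0 := by
    by_cases hG0 : G * deriv a (π w) = 0
    · rw [hθ0] at hθ2
      have hA : A ≠ 0 := by
        intro hA
        apply hN
        rw [hA]
        linear_combination (1 + (p : ℂ) * G * B) * hG0
      have h1 : π v * A = 0 := by linear_combination -hθ2
      exact (mul_eq_zero.1 h1).resolve_right hA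
    · rw [hθ0, zero_mul] at hv1
      exact (mul_eq_zero.1 hv1).resolve_left hG0
  have hτv : τ v = 0 := by
    have h1 : ∀ w, τ w = φ (- h w) (Φ w) := by
      intro w
      change τ w = φ (- h w) (φ (h w) (τ w))
      rw [← hφ.add, neg_add_cancel, hφ.zero]
    have h2 : HasFDerivAt (fun w => (- h w, Φ w)) ((-(fderiv ℂ h w)).prod (fderiv ℂ Φ w)) w :=
      ((hh w).differentiableAt.hasFDerivAt).neg.prodMk (hΦ w).hasFDerivAt
    have h3 : HasFDerivAt (fun w => φ (- h w) (Φ w))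
        ((fderiv ℂ (fun p : ℂ × (Fin n → ℂ) => φ p.1 p.2) (- h w, Φ w)).comp
          ((-(fderiv ℂ h w)).prod (fderiv ℂ Φ w))) w :=
      HasFDerivAt.comp (g := fun p : ℂ × (Fin n → ℂ) => φ p.1 p.2) w
        (hφ.diff (- h w, Φ w)).hasFDerivAt h2
    have h4 : HasFDerivAt (fun w => φ (- h w) (Φ w)) τ w := by
      rw [← funext h1]
      exact τ.hasFDerivAt
    have h5 := congrArg (fun L => L v) (h4.unique h3)
    simp only [ContinuousLinearMap.comp_apply, ContinuousLinearMap.prod_apply, hfv,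
      neg_apply, ← hθ, hθ0, neg_zero] at h5
    rw [h5]
    exact map_zero _
  ext i
  refine Fin.cases hv0 (fun j => ?_) i
  exact congrFun hτv j

end Pool.Agent.Helper72.CF
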