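import Mathlib

/-!
# The entire functions `cosh √x` and `sinh √x / √x`
-/

open Filter Topology

namespace Pool.Agent.Helper72.CF

/-- `x^j / (2j)!` -/
noncomputable def ct (j : ℕ) (x : ℂ) : ℂ := x ^ j / ((2 * j).factorial : ℂ)

/-- `x^j / (2j+1)!` -/
noncomputable def st (j : ℕ) (x : ℂ) : ℂ := x ^ j / ((2 * j + 1).factorial : ℂ)

theorem ct_norm_le (j : ℕ) {x : ℂ} {R : ℝ} (hx : ‖x‖ ≤ R) :
    ‖ct j x‖ ≤ R ^ j / (j.factorial : ℝ) := by
  have hR : 0 ≤ R := (norm_nonneg _).trans hx
  unfold ct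
  rw [norm_div, norm_pow, Complex.norm_natCast]
  have h1 : (j.factorial : ℝ) ≤ ((2 * j).factorial : ℝ) := by
    exact_mod_cast Nat.factorial_le (by omega)
  have h2 : (0 : ℝ) < (j.factorial : ℝ) := by exact_mod_cast Nat.factorial_pos j
  exact div_le_div₀ (by positivity) (pow_le_pow_left₀ (norm_nonneg _) hx j) h2 h1

theorem st_norm_le (j : ℕ) {x : ℂ} {R : ℝ} (hx : ‖x‖ ≤ R) :
    ‖st j x‖ ≤ R ^ j / (j.factorial : ℝ) := by
  have hR : 0 ≤ R := (norm_nonneg _).trans hx
  unfold st
  rw [norm_div, norm_pow, Complex.norm_natCast]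
  have h1 : (j.factorial : ℝ) ≤ ((2 * j + 1).factorial : ℝ) := by
    exact_mod_cast Nat.factorial_le (by omega)
  have h2 : (0 : ℝ) < (j.factorial : ℝ) := by exact_mod_cast Nat.factorial_pos j
  exact div_le_div₀ (by positivity) (pow_le_pow_left₀ (norm_nonneg _) hx j) h2 h1

/-- `cosh √x` -/
noncomputable def Ch (x : ℂ) : ℂ := ∑' j, ct j x

/-- `sinh √x / √x` -/
noncomputable def Sh (x : ℂ) : ℂ := ∑' j, st j x

theorem differentiable_Ch : Differentiable ℂ Ch := by
  intro x
  have h := Complex.differentiableOn_tsum_of_summable_norm (U := Metric.ball (0 : ℂ) (‖x‖ + 1))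
    (F := ct) (Real.summable_pow_div_factorial (‖x‖ + 1))
    (fun j => (by unfold ct; fun_prop : Differentiable ℂ (ct j)).differentiableOn)
    Metric.isOpen_ball (fun j w hw => ct_norm_le j (by
      rw [Metric.mem_ball, dist_zero_right] at hw
      exact hw.le))
  exact (h x (by simp)).differentiableAt (Metric.isOpen_ball.mem_nhds (by simp))

theorem differentiable_Sh : Differentiable ℂ Sh := by
  intro x
  have h := Complex.differentiableOn_tsum_of_summable_norm (U := Metric.ball (0 : ℂ) (‖x‖ + 1))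
    (F := st) (Real.summable_pow_div_factorial (‖x‖ + 1))
    (fun j => (by unfold st; fun_prop : Differentiable ℂ (st j)).differentiableOn)
    Metric.isOpen_ball (fun j w hw => st_norm_le j (by
      rw [Metric.mem_ball, dist_zero_right] at hw
      exact hw.le))
  exact (h x (by simp)).differentiableAt (Metric.isOpen_ball.mem_nhds (by simp))

theorem Ch_sq (y : ℂ) : Ch (y ^ 2) = Complex.cosh y := by
  have h1 := Complex.hasSum_cosh y
  have h3 : (fun j => ct j (y ^ 2)) = fun n : ℕ => y ^ (2 * n) / ((2 * n).factorial : ℂ) := by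
    funext j
    unfold ct
    rw [← pow_mul]
  unfold Ch
  rw [h3]
  exact h1.tsum_eq

theorem Sh_sq (y : ℂ) : y * Sh (y ^ 2) = Complex.sinh y := by
  have h1 := Complex.hasSum_sinh y
  have hs : Summable fun j => st j (y ^ 2) := by
    apply Summable.of_norm_bounded (Real.summable_pow_div_factorial (‖y ^ 2‖))
    intro j
    exact st_norm_le j le_rfl
  have h2 := hs.hasSum.mul_left y
  have h3 : (fun j => y * st j (y ^ 2)) = fun n : ℕ => y ^ (2 * n + 1) / ((2 * n + 1).factorial : ℂ) := by
    funext j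
    unfold st
    rw [← pow_mul]
    ring
  rw [h3] at h2
  exact h2.unique h1

theorem Ch_zero : Ch 0 = 1 := by
  have := Ch_sq 0
  simpa using this

theorem Sh_zero : Sh 0 = 1 := by
  unfold Sh
  rw [tsum_eq_single 0]
  · simp [st]
  · intro j hj
    simp [st, hj]

end Pool.Agent.Helper72.CF
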