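import Pool.Agent.Helper72.CF.Solve
import Pool.Agent.Helper72.CF.Cosh

/-!
# The function `H` for the hypersurfaces `w² g + f = 1`
-/

open Filter Topology

namespace Pool.Agent.Helper72.CF

theorem exists_dslope {f : ℂ → ℂ} (hf : Differentiable ℂ f) (h0 : f 0 = 0) :
    ∃ D : ℂ → ℂ, Differentiable ℂ D ∧ ∀ x, x * D x = f x := by
  refine ⟨dslope f 0, ?_, fun x => ?_⟩
  · have h1 : DifferentiableOn ℂ (dslope f 0) Set.univ :=
      (Complex.differentiableOn_dslope (by simp)).2 hf.differentiableOn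
    exact differentiableOn_univ.1 h1
  · have := sub_smul_dslope f 0 x
    rw [h0, sub_zero, sub_zero] at this
    simpa using this

/-- The function `H` for `w² g + f = 1`. -/
theorem exists_H2 (p q : ℝ) (hp : 0 < p) (hq : 0 < q) : ∃ H : ℂ × ℂ → ℂ, Differentiable ℂ H ∧
    ∀ w g : ℂ, 2 * w * g +
      fderiv ℂ H (w, g) (-((q : ℂ) - (q - p) * (w ^ 2 * g)), (p : ℂ) * (2 * w) * g ^ 2) ≠ 0 := by
  have hp' : (p : ℂ) ≠ 0 := by exact_mod_cast hp.ne'
  -- the exponent `Q`
  let Q : ℂ → ℂ := fun θ => (1 - θ) * (Real.log q : ℂ) + θ * (Real.log p : ℂ)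
  have hQd : Differentiable ℂ Q := by
    simp only [Q]
    fun_prop
  have hQ0 : Complex.exp (Q 0) = q := by
    simp only [Q, sub_zero, one_mul, zero_mul, add_zero]
    rw [← Complex.ofReal_exp, Real.exp_log hq]
  have hQ1 : Complex.exp (Q 1) = p := by
    simp only [Q, sub_self, one_mul, zero_mul, zero_add]
    rw [← Complex.ofReal_exp, Real.exp_log hp]
  obtain ⟨D, hDd, hD⟩ := exists_dslope
    (f := fun θ => Complex.exp (Q θ) - q + ((q : ℂ) - p) * θ) (by fun_prop) (by simp [hQ0])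
  obtain ⟨C, hCd, hC⟩ := exists_dslope (f := fun x => Ch x - 1)
    (differentiable_Ch.sub_const 1) (by simp [Ch_zero])
  have hD1 : D 1 = 0 := by
    have := hD 1
    rw [one_mul, hQ1] at this
    rw [this]
    ring
  -- the function `R`
  obtain ⟨K₁, hK₁d, hK₁⟩ := exists_solve (2 * q) (2 * p) (by positivity) (by positivity)
    (fun z => Complex.exp (Q (1 - z.1)) * (z.2 * C ((1 - z.1) * z.2)) + D (1 - z.1))
    (by
      have e1 : Differentiable ℂ fun z : ℂ × ℂ => Q (1 - z.1) := hQd.comp (by fun_prop)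
      have e2 : Differentiable ℂ fun z : ℂ × ℂ => C ((1 - z.1) * z.2) := hCd.comp (by fun_prop)
      have e3 : Differentiable ℂ fun z : ℂ × ℂ => D (1 - z.1) := hDd.comp (by fun_prop)
      fun_prop)
    (by simp [hD1])
  set r₀ : ℂ := K₁ 0 + Complex.log (-2 / p) with hr₀
  let P : ℂ × ℂ → ℂ := fun z => r₀ - K₁ z + Q (1 - z.1)
  have hPd : Differentiable ℂ P := by
    have e1 : Differentiable ℂ fun z : ℂ × ℂ => Q (1 - z.1) := hQd.comp (by fun_prop)
    exact (hK₁d.const_sub r₀).add e1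
  have hP0 : Complex.exp (P 0) = -2 := by
    have h1 : P 0 = Complex.log (-2 / p) + Q 1 := by
      simp only [P, hr₀, Prod.fst_zero, sub_zero]
      ring
    rw [h1, Complex.exp_add, hQ1, Complex.exp_log (div_ne_zero (by norm_num) hp')]
    field_simp
  obtain ⟨K₂, hK₂d, hK₂⟩ := exists_solve (2 * q) (2 * p) (by positivity) (by positivity)
    (fun z => Complex.exp (P z) * Sh ((1 - z.1) * z.2) + 2)
    (by
      have e2 : Differentiable ℂ fun z : ℂ × ℂ => Sh ((1 - z.1) * z.2) :=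
        differentiable_Sh.comp (by fun_prop)
      fun_prop)
    (by simp [Sh_zero, hP0])
  -- the function `H`
  let F1 : ℂ × ℂ →L[ℂ] ℂ := ContinuousLinearMap.fst ℂ ℂ ℂ
  let F2 : ℂ × ℂ →L[ℂ] ℂ := ContinuousLinearMap.snd ℂ ℂ ℂ
  let T : ℂ × ℂ → ℂ × ℂ := fun u => (1 - u.1 ^ 2 * u.2, u.2)
  let T' : ℂ × ℂ → (ℂ × ℂ →L[ℂ] ℂ × ℂ) := fun u =>
    (-(u.1 ^ 2 • F2 + u.2 • ((2 * u.1) • F1))).prod F2
  have hT : ∀ u, HasFDerivAt T (T' u) u := by
    intro u
    have a1 : HasFDerivAt (fun u : ℂ × ℂ => u.1) F1 u := hasFDerivAt_fst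
    have a2 : HasFDerivAt (fun u : ℂ × ℂ => u.2) F2 u := hasFDerivAt_snd
    have a3 : HasFDerivAt (fun u : ℂ × ℂ => u.1 ^ 2) ((2 * u.1) • F1) u := by
      have h := a1.fun_mul a1
      have e1 : u.1 • F1 + u.1 • F1 = (2 * u.1) • F1 := by
        refine ContinuousLinearMap.ext fun v => ?_
        simp only [add_apply, smul_apply, smul_eq_mul]
        ring
      rw [e1] at h
      simpa only [pow_two] using h
    have a4 := (a3.fun_mul a2).const_sub 1
    exact a4.prodMk a2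
  let H : ℂ × ℂ → ℂ := fun u => -K₂ (T u) + u.1 * Complex.exp (r₀ - K₁ (T u))
  have hH : ∀ u, HasFDerivAt H (-((fderiv ℂ K₂ (T u)).comp (T' u)) +
      (u.1 • (Complex.exp (r₀ - K₁ (T u)) • (-((fderiv ℂ K₁ (T u)).comp (T' u)))) +
        Complex.exp (r₀ - K₁ (T u)) • F1)) u := by
    intro u
    have b1 : HasFDerivAt (fun u => K₁ (T u)) ((fderiv ℂ K₁ (T u)).comp (T' u)) u :=
      (hK₁d _).hasFDerivAt.comp u (hT u)
    have b2 : HasFDerivAt (fun u => K₂ (T u)) ((fderiv ℂ K₂ (T u)).comp (T' u)) u :=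
      (hK₂d _).hasFDerivAt.comp u (hT u)
    have a1 : HasFDerivAt (fun u : ℂ × ℂ => u.1) F1 u := hasFDerivAt_fst
    have b3 : HasFDerivAt (fun u => r₀ - K₁ (T u)) (-((fderiv ℂ K₁ (T u)).comp (T' u))) u :=
      b1.const_sub r₀
    exact b2.neg.add (a1.fun_mul b3.cexp)
  refine ⟨H, fun u => (hH u).differentiableAt, fun w g => ?_⟩
  set θ : ℂ := w ^ 2 * g with hθ
  set d : ℂ × ℂ := (-((q : ℂ) - (q - p) * θ), (p : ℂ) * (2 * w) * g ^ 2) with hd
  have hTd : T' (w, g) d = (w * g) • (((2 * q : ℝ) : ℂ) * (T (w, g)).1,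
      ((2 * p : ℝ) : ℂ) * (T (w, g)).2) := by
    simp only [T', T, F1, F2, hd]
    ext
    · simp only [ContinuousLinearMap.prod_apply, neg_apply,
        add_apply, smul_apply,
        ContinuousLinearMap.coe_snd', ContinuousLinearMap.coe_fst', smul_eq_mul, Prod.smul_fst,
        hθ]
      push_cast
      ring
    · simp only [ContinuousLinearMap.prod_apply, ContinuousLinearMap.coe_snd', smul_eq_mul,
        Prod.smul_snd]
      push_cast
      ring
  have hT1 : T (w, g) = (1 - θ, g) := rfl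
  have e1 : fderiv ℂ K₁ (T (w, g)) (T' (w, g) d) =
      (w * g) * (Complex.exp (Q θ) * (g * C (θ * g)) + D θ) := by
    rw [hTd, map_smul, hK₁, smul_eq_mul, hT1]
    simp only [sub_sub_cancel]
  have e2 : fderiv ℂ K₂ (T (w, g)) (T' (w, g) d) =
      (w * g) * (Complex.exp (P (T (w, g))) * Sh (θ * g) + 2) := by
    rw [hTd, map_smul, hK₂, smul_eq_mul, hT1]
    simp only [sub_sub_cancel]
  have hsq : θ * g = (w * g) ^ 2 := by rw [hθ]; ring
  have hS : (w * g) * Sh (θ * g) = Complex.sinh (w * g) := by rw [hsq, Sh_sq]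
  have hCc : Ch (θ * g) = Complex.cosh (w * g) := by rw [hsq, Ch_sq]
  have hPe : Complex.exp (P (T (w, g))) =
      Complex.exp (r₀ - K₁ (T (w, g))) * Complex.exp (Q θ) := by
    rw [← Complex.exp_add]
    congr 1
    simp only [P, hT1, sub_sub_cancel]
  have hDθ := hD θ
  have hCθ := hC (θ * g)
  have hmain : 2 * w * g + fderiv ℂ H (w, g) d =
      -(Complex.exp (P (T (w, g))) * Complex.exp (w * g)) := by
    rw [(hH (w, g)).fderiv]
    simp only [add_apply, neg_apply,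
      smul_apply, ContinuousLinearMap.comp_apply, e1, e2, smul_eq_mul]
    simp only [F1, ContinuousLinearMap.coe_fst', hd]
    rw [hPe, ← Complex.cosh_add_sinh (w * g), ← hS, ← hCc]
    set EQ : ℂ := Complex.exp (Q θ)
    set ER : ℂ := Complex.exp (r₀ - K₁ (T (w, g)))
    have h3 : w * (w * g) = θ := by rw [hθ]; ring
    linear_combination (-ER * EQ * g * C (θ * g) - ER * D θ) * h3 - ER * EQ * hCθ - ER * hDθ
  rw [hmain]
  exact neg_ne_zero.2 (mul_ne_zero (Complex.exp_ne_zero _) (Complex.exp_ne_zero _))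

end Pool.Agent.Helper72.CF
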