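import Pool.Agent.Helper72.CF.Flex
import Pool.Agent.Helper72.CF.ExistsH
import Pool.Agent.Helper72.CF.Core3
import Pool.Agent.Helper72.IM.Forms

/-!
# Reduction of the plane cubic forms
-/

open MvPolynomial Pool.Agent.Helper40.IM Pool.Agent.Helper72.IM

namespace Pool.Agent.Helper72.CF

private lemma pderiv_comm' {m : ℕ} (i j : Fin m) (F : MvPolynomial (Fin m) ℂ) :
    pderiv i (pderiv j F) = pderiv j (pderiv i F) := by
  have h := congrArg (fun D => D F)
    (derivation_ext (D₁ := ⁅pderiv (R := ℂ) i, pderiv (R := ℂ) j⁆) (D₂ := 0) (fun k => by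
      rw [Derivation.commutator_apply]
      simp only [pderiv_X, Pi.single_apply]
      split_ifs <;> simp))
  simp only [Derivation.commutator_apply] at h
  exact sub_eq_zero.mp h

private lemma euler_eval {m n : ℕ} {G : MvPolynomial (Fin m) ℂ} (hG : G.IsHomogeneous n)
    (z : Fin m → ℂ) : ∑ k, z k * eval z (pderiv k G) = n * eval z G := by
  have h := congrArg (eval z) hG.sum_X_mul_pderiv
  simpa [map_sum] using h

private lemma eval_const {m : ℕ} {G : MvPolynomial (Fin m) ℂ} (hG : G.IsHomogeneous 0)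
    (z w : Fin m → ℂ) : eval z G = eval w G := by
  rw [totalDegree_eq_zero_iff_eq_C.mp (Nat.le_zero.mp hG.totalDegree_le)]
  simp

/-- the symmetric trilinear form of a cubic form -/
theorem exists_tri (F : MvPolynomial (Fin 3) ℂ) (hF : F.IsHomogeneous 3) :
    ∃ T : Tri, (∀ x y z, T x y z = T y x z) ∧ (∀ x y z, T x y z = T x z y) ∧
      (∀ x, T x x x = eval x F) ∧
      (∀ e, (∀ y, T e e y = 0) → ∀ i, eval e (pderiv i F) = 0) := by
  let c : Fin 3 → Fin 3 → Fin 3 → ℂ := fun i j k =>
    eval 0 (pderiv k (pderiv j (pderiv i F))) / 6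
  let T : Tri := ∑ i, ∑ j, ∑ k, c i j k •
    (LinearMap.proj i : (Fin 3 → ℂ) →ₗ[ℂ] ℂ).smulRight
      ((LinearMap.proj j : (Fin 3 → ℂ) →ₗ[ℂ] ℂ).smulRight
        (LinearMap.proj k : (Fin 3 → ℂ) →ₗ[ℂ] ℂ))
  have hT : ∀ x y z, T x y z = ∑ i, ∑ j, ∑ k, c i j k * (x i * (y j * z k)) := by
    intro x y z
    simp [T, LinearMap.sum_apply]
  have hc1 : ∀ i j k, c i j k = c j i k := by
    intro i j k
    simp only [c]
    rw [pderiv_comm' j i]
  have hc2 : ∀ i j k, c i j k = c i k j := by
    intro i j k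
    simp only [c]
    rw [pderiv_comm' k j]
  have h1 : ∀ i, (pderiv i F).IsHomogeneous 2 := fun i => hF.pderiv
  have h2 : ∀ i j, (pderiv j (pderiv i F)).IsHomogeneous 1 := fun i j => (h1 i).pderiv
  have h3 : ∀ i j k, (pderiv k (pderiv j (pderiv i F))).IsHomogeneous 0 :=
    fun i j k => (h2 i j).pderiv
  have e1 : ∀ x y, T y x x = (∑ i, y i * eval x (pderiv i F)) / 3 := by
    intro x y
    rw [hT, Finset.sum_div]
    refine Finset.sum_congr rfl fun i _ => ?_
    have e2 := euler_eval (h1 i) x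
    have e3 : ∀ j, x j * eval x (pderiv j (pderiv i F)) = ∑ k, 6 * (c i j k * (x j * x k)) := by
      intro j
      have e4 := euler_eval (h2 i j) x
      rw [Nat.cast_one, one_mul] at e4
      rw [← e4, Finset.mul_sum]
      refine Finset.sum_congr rfl fun k _ => ?_
      simp only [c]
      rw [eval_const (h3 i j k) x 0]
      ring
    rw [Finset.sum_congr rfl fun j _ => e3 j] at e2
    have e5 : eval x (pderiv i F) = 3 * ∑ j, ∑ k, c i j k * (x j * x k) := by
      have : (2 : ℂ) ≠ 0 := two_ne_zero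
      apply mul_left_cancel₀ this
      push_cast at e2
      rw [← e2]
      simp only [← Finset.mul_sum]
      ring
    rw [e5, Finset.mul_sum, Finset.mul_sum, Finset.sum_div]
    refine Finset.sum_congr rfl fun j _ => ?_
    rw [Finset.mul_sum, Finset.mul_sum, Finset.sum_div]
    refine Finset.sum_congr rfl fun k _ => ?_
    ring
  have s1 : ∀ x y z, T x y z = T y x z := by
    intro x y z
    rw [hT, hT, Finset.sum_comm]
    refine Finset.sum_congr rfl fun i _ => Finset.sum_congr rfl fun j _ =>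
      Finset.sum_congr rfl fun k _ => ?_
    rw [hc1]
    ring
  have s2 : ∀ x y z, T x y z = T x z y := by
    intro x y z
    rw [hT, hT]
    refine Finset.sum_congr rfl fun i _ => ?_
    rw [Finset.sum_comm]
    refine Finset.sum_congr rfl fun j _ => Finset.sum_congr rfl fun k _ => ?_
    rw [hc2]
    ring
  refine ⟨T, s1, s2, fun x => ?_, fun e he i => ?_⟩
  · rw [e1, euler_eval hF x]
    push_cast
    ring
  · have h4 := he (Pi.single i 1)
    rw [s2, s1, e1] at h4
    have h5 : ∑ j, (Pi.single i 1 : Fin 3 → ℂ) j * eval e (pderiv j F) = eval e (pderiv i F) := by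
      simp [Pi.single_apply]
    rw [h5] at h4
    simpa using h4

theorem smooth_case (F : MvPolynomial (Fin 3) ℂ) (T : Tri)
    (hs1 : ∀ x y z, T x y z = T y x z) (hs2 : ∀ x y z, T x y z = T x z y)
    (hT : ∀ x, T x x x = eval x F) (e : Fin 3 → ℂ) (he0 : e ≠ 0) (he : T e e e = 0)
    (k : Fin 3 → ℂ) (hk0 : k ≠ 0) (hk : ∀ y, T e y k = 0) (y₀ : Fin 3 → ℂ) (hy₀ : T e e y₀ ≠ 0) :
    ∃ f : (Fin 3 → ℂ) → (Fin 2 → ℂ), Differentiable ℂ f ∧
      ∀ w, eval w F = 1 → ∀ v, ∑ i, v i * eval w (pderiv i F) = 0 →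
        fderiv ℂ f w v = 0 → v = 0 := by
  -- the normalised third vector
  obtain ⟨y, hy, hyy⟩ : ∃ y, T e e y ≠ 0 ∧ T e y y = 0 := by
    refine ⟨y₀ - (T e y₀ y₀ / (2 * T e e y₀)) • e, ?_, ?_⟩
    · simp only [map_sub, map_smul, smul_eq_mul, he, mul_zero, sub_zero]
      exact hy₀
    · simp only [map_sub, map_smul, smul_eq_mul, LinearMap.sub_apply, LinearMap.smul_apply, he,
        hs2 e y₀ e]
      field_simp
      ring
  set a : ℂ := 3 * T e e y with ha
  let β : (Fin 3 → ℂ) →ₗ[ℂ] (Fin 3 → ℂ) :=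
    (LinearMap.proj 0 : (Fin 3 → ℂ) →ₗ[ℂ] ℂ).smulRight e +
      (LinearMap.proj 1 : (Fin 3 → ℂ) →ₗ[ℂ] ℂ).smulRight y +
      (LinearMap.proj 2 : (Fin 3 → ℂ) →ₗ[ℂ] ℂ).smulRight k
  have hβ : ∀ w, β w = w 0 • e + w 1 • y + w 2 • k := fun w => by simp [β]
  have hinj : Function.Injective β := by
    rw [injective_iff_map_eq_zero]
    intro w hw
    rw [hβ] at hw
    have h1 : T e e (w 0 • e + w 1 • y + w 2 • k) = 0 := by rw [hw, map_zero]
    simp only [map_add, map_smul, smul_eq_mul, he, hk, mul_zero, zero_add, add_zero] at h1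
    have hw1 : w 1 = 0 := (mul_eq_zero.1 h1).resolve_right hy
    rw [hw1, zero_smul, add_zero] at hw
    have hw2 : w 2 = 0 := by
      by_contra h2
      have h3 : k = (-(w 0) / w 2) • e := by
        have h4 : w 2 • k = -(w 0) • e := by
          rw [neg_smul]
          exact eq_neg_of_add_eq_zero_right hw
        rw [div_eq_inv_mul, mul_smul, ← h4, smul_smul, inv_mul_cancel₀ h2, one_smul]
      have h5 : -(w 0) / w 2 ≠ 0 := by
        intro h6
        rw [h6, zero_smul] at h3
        exact hk0 h3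
      have h7 := hk y
      rw [h3, map_smul, hs2, smul_eq_mul] at h7
      exact hy ((mul_eq_zero.1 h7).resolve_left h5)
    rw [hw2, zero_smul, add_zero] at hw
    have hw0 : w 0 = 0 := (smul_eq_zero.1 hw).resolve_right he0
    ext i
    fin_cases i
    · exact hw0
    · exact hw1
    · exact hw2
  let ε := LinearEquiv.ofInjectiveEndo β hinj
  have hε : ∀ u, β (ε.symm u) = u := fun u => ε.apply_symm_apply u
  have hβd : Differentiable ℂ β := (LinearMap.toContinuousLinearMap β).differentiable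
  have hαd : Differentiable ℂ ε.symm :=
    (LinearMap.toContinuousLinearMap (ε.symm : (Fin 3 → ℂ) →ₗ[ℂ] (Fin 3 → ℂ))).differentiable
  let ζ : (Fin 2 → ℂ) → (Fin 3 → ℂ) := fun z => z 0 • y + z 1 • k
  have hζ : Differentiable ℂ ζ := by
    simp only [ζ]
    fun_prop
  let g : (Fin 2 → ℂ) → ℂ := fun z => a * z 0
  let f : (Fin 2 → ℂ) → ℂ := fun z => eval (ζ z) F
  have hg : Differentiable ℂ g := by
    simp only [g]
    fun_prop
  have hf : Differentiable ℂ f := (differentiable_eval F).comp hζ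
  have hE : ∀ w, eval (β w) F = (w 0) ^ 2 * g (fun i => w (Fin.succ i)) +
      f (fun i => w (Fin.succ i)) := by
    intro w
    have h1 : f (fun i => w (Fin.succ i)) = T (w 1 • y + w 2 • k) (w 1 • y + w 2 • k)
        (w 1 • y + w 2 • k) := by
      rw [hT]
      rfl
    have h2 : g (fun i => w (Fin.succ i)) = a * w 1 := rfl
    rw [h1, h2, hβ, ← hT, add_assoc, ha]
    generalize hz : w 1 • y + w 2 • k = z
    have h3 : T e e z = w 1 * T e e y := by
      rw [← hz, map_add, map_smul, map_smul, hk, smul_zero, add_zero, smul_eq_mul]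
    have h4 : T e z z = 0 := by
      rw [← hz]
      simp only [map_add, map_smul, smul_eq_mul, LinearMap.add_apply, LinearMap.smul_apply, hyy,
        hk, hs2 e k y, mul_zero, add_zero]
    simp only [map_add, map_smul, smul_eq_mul, LinearMap.add_apply, LinearMap.smul_apply, he,
      hs2 e z e, hs1 z e, h3, h4, hs2 z z e, mul_zero, add_zero, zero_add]
    ring
  have hscale : ∀ (c : ℂ) x, eval (c • x) F = c ^ 3 * eval x F := by
    intro c x
    rw [← hT, ← hT]
    simp only [map_smul, LinearMap.smul_apply, smul_eq_mul]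
    ring
  obtain ⟨hEd, hΦ⟩ := core3 (fun w => w ^ 2) (by fun_prop)
    (fun (t : ℂ) (z : Fin 2 → ℂ) => Complex.exp t • z) (isFlow_scaling 2)
    g f hg hf 1 3
    (by
      intro t z
      simp only [g, Pi.smul_apply, smul_eq_mul, Complex.ofReal_one, one_mul]
      ring)
    (by
      intro t z
      have h1 : ζ (Complex.exp t • z) = Complex.exp t • ζ z := by
        simp only [ζ, Pi.smul_apply, smul_eq_mul, smul_add, smul_smul]
      change eval (ζ (Complex.exp t • z)) F = _ * eval (ζ z) F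
      rw [h1, hscale, ← Complex.exp_nat_mul]
      push_cast
      rfl)
    (by
      obtain ⟨H, hH, hH2⟩ := exists_H2 1 3 one_pos (by norm_num)
      refine ⟨H, hH, fun w g => ?_⟩
      have h1 : deriv (fun w : ℂ => w ^ 2) w = 2 * w := by simp
      rw [h1]
      exact hH2 w g)
    (fun w => eval (β w) F) hE
  exact transport ε.symm β hαd hβd hε (fun w => eval (β w) F) hEd hΦ F (fun w => by rw [hε])

end Pool.Agent.Helper72.CF
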