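import Mathlib

/-!
# Flexes of plane cubics

`T` is a symmetric trilinear form on `ℂ³`, `F(x) = T(x, x, x)` the cubic form. If `F ≠ 0` there are
`e ≠ 0`, `k ≠ 0` with `T(e, e, e) = 0` and `T(e, k, ·) = 0` (a common zero of `F` and the Hessian, by
the resultant).
-/

open Polynomial

namespace Pool.Agent.Helper72.CF

/-- trilinear forms on `ℂ³` -/
abbrev Tri := (Fin 3 → ℂ) →ₗ[ℂ] (Fin 3 → ℂ) →ₗ[ℂ] (Fin 3 → ℂ) →ₗ[ℂ] ℂ

variable (T : Tri)

/-- the matrix of `T x` -/
noncomputable def Mat (x : Fin 3 → ℂ) : Matrix (Fin 3) (Fin 3) ℂ :=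
  Matrix.of fun j k => T x (Pi.single j 1) (Pi.single k 1)

theorem Mat_lin (w : ℂ) (e z : Fin 3 → ℂ) : Mat T (w • e + z) = w • Mat T e + Mat T z := by
  ext j k
  simp [Mat]

theorem Mat_smul (w : ℂ) (e : Fin 3 → ℂ) : Mat T (w • e) = w • Mat T e := by
  ext j k
  simp [Mat]

theorem vec_eq (k : Fin 3 → ℂ) : k = ∑ i, k i • (Pi.single i 1 : Fin 3 → ℂ) := by
  ext j
  simp [Finset.sum_apply, Pi.single_apply]

theorem exists_ker (x : Fin 3 → ℂ) (h : (Mat T x).det = 0) : ∃ k ≠ 0, ∀ y, T x y k = 0 := by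
  obtain ⟨k, hk0, hk⟩ := Matrix.exists_mulVec_eq_zero_iff.2 h
  refine ⟨k, hk0, fun y => ?_⟩
  have h1 : ∀ j, T x (Pi.single j 1) k = 0 := by
    intro j
    have h2 := congrFun hk j
    rw [Matrix.mulVec, dotProduct] at h2
    simp only [Mat, Matrix.of_apply, Pi.zero_apply] at h2
    rw [vec_eq k, map_sum]
    rw [← h2]
    refine Finset.sum_congr rfl fun i _ => ?_
    rw [map_smul, smul_eq_mul, mul_comm]
  rw [vec_eq y, map_sum, LinearMap.sum_apply]
  refine Finset.sum_eq_zero fun j _ => ?_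
  rw [map_smul, LinearMap.smul_apply, h1, smul_zero]

/-- `F(w e + z)` as a polynomial in `w` -/
noncomputable def fz (e z : Fin 3 → ℂ) : ℂ[X] :=
  C (T e e e) * X ^ 3 + C (3 * T e e z) * X ^ 2 + C (3 * T e z z) * X + C (T z z z)

/-- the Hessian at `w e + z` as a polynomial in `w` -/
noncomputable def gz (e z : Fin 3 → ℂ) : ℂ[X] :=
  Matrix.det ((X : ℂ[X]) • (Mat T e).map C + (Mat T z).map C)

theorem eval_fz (hs1 : ∀ x y z, T x y z = T y x z) (hs2 : ∀ x y z, T x y z = T x z y)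
    (e z : Fin 3 → ℂ) (w : ℂ) : (fz T e z).eval w = T (w • e + z) (w • e + z) (w • e + z) := by
  simp only [fz, eval_add, eval_mul, eval_C, eval_pow, eval_X, map_add, map_smul,
    LinearMap.add_apply, LinearMap.smul_apply, smul_eq_mul]
  rw [hs1 z e e, hs2 e z e, hs1 z e z, hs2 z z e, hs1 z e z]
  ring

theorem eval_gz (e z : Fin 3 → ℂ) (w : ℂ) : (gz T e z).eval w = (Mat T (w • e + z)).det := by
  rw [gz, ← coe_evalRingHom, RingHom.map_det, Mat_lin]
  congr 1
  ext j k
  simp [Matrix.map_apply, Matrix.add_apply, Matrix.smul_apply]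
  ring

theorem natDegree_gz (e z : Fin 3 → ℂ) : (gz T e z).natDegree ≤ 3 := by
  have := natDegree_det_X_add_C_le (Mat T e) (Mat T z)
  simpa [gz] using this

/-- the resultant -/
noncomputable def rho (e z : Fin 3 → ℂ) : ℂ := resultant (fz T e z) (gz T e z) 3 3

theorem natDegree_fz (e z : Fin 3 → ℂ) (h : T e e e ≠ 0) : (fz T e z).natDegree = 3 :=
  natDegree_cubic h

theorem rho_eq (e z : Fin 3 → ℂ) (h : T e e e ≠ 0) :
    rho T e z = T e e e ^ 3 * ((fz T e z).roots.map (gz T e z).eval).prod := by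
  have h1 := resultant_eq_prod_eval (fz T e z) (gz T e z) 3 (natDegree_gz T e z)
    (IsAlgClosed.splits _)
  rw [natDegree_fz T e z h] at h1
  rw [rho, h1]
  congr 2
  exact leadingCoeff_cubic h

theorem exists_root (hs1 : ∀ x y z, T x y z = T y x z) (hs2 : ∀ x y z, T x y z = T x z y)
    (e z : Fin 3 → ℂ) (h : T e e e ≠ 0) (h0 : rho T e z = 0) :
    ∃ w : ℂ, T (w • e + z) (w • e + z) (w • e + z) = 0 ∧ (Mat T (w • e + z)).det = 0 := by
  rw [rho_eq T e z h] at h0
  have h1 := (mul_eq_zero.1 h0).resolve_left (pow_ne_zero 3 h)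
  obtain ⟨w, hw, hw'⟩ := Multiset.mem_map.1 (Multiset.prod_eq_zero_iff.1 h1)
  refine ⟨w, ?_, ?_⟩
  · rw [← eval_fz T hs1 hs2]
    exact (mem_roots'.1 hw).2
  · rw [← eval_gz]
    exact hw'

theorem fz_smul (hs1 : ∀ x y z, T x y z = T y x z) (hs2 : ∀ x y z, T x y z = T x z y)
    (e z : Fin 3 → ℂ) (h : T e e e ≠ 0) (c : ℂ) (hc : c ≠ 0) :
    fz T e (c • z) = (fz T e z).scaleRoots c := by
  apply Polynomial.funext
  intro w
  have h1 : w = c * (w / c) := by field_simp
  rw [h1, scaleRoots_eval_mul, natDegree_fz T e z h, eval_fz T hs1 hs2, eval_fz T hs1 hs2]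
  have h2 : (c * (w / c)) • e + c • z = c • ((w / c) • e + z) := by
    rw [smul_add, smul_smul]
  rw [h2]
  simp only [map_smul, LinearMap.smul_apply, smul_eq_mul]
  ring

theorem rho_smul (hs1 : ∀ x y z, T x y z = T y x z) (hs2 : ∀ x y z, T x y z = T x z y)
    (e z : Fin 3 → ℂ) (h : T e e e ≠ 0) (c : ℂ) (hc : c ≠ 0) :
    rho T e (c • z) = c ^ 9 * rho T e z := by
  rw [rho_eq T e _ h, rho_eq T e _ h, fz_smul T hs1 hs2 e z h c hc,
    roots_scaleRoots _ (isUnit_iff_ne_zero.mpr hc), Multiset.map_map]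
  have h1 : ∀ w : ℂ, (gz T e (c • z)).eval (c * w) = c ^ 3 * (gz T e z).eval w := by
    intro w
    rw [eval_gz, eval_gz]
    have h2 : (c * w) • e + c • z = c • (w • e + z) := by
      rw [smul_add, smul_smul]
    rw [h2, Mat_smul, Matrix.det_smul]
    simp
  have h3 : (eval · (gz T e (c • z))) ∘ (c * ·) = fun w => c ^ 3 * (gz T e z).eval w := by
    funext w
    exact h1 w
  rw [h3, Multiset.prod_map_mul, Multiset.map_const', Multiset.prod_replicate]
  have h4 : (fz T e z).roots.card = 3 := by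
    rw [← (IsAlgClosed.splits (fz T e z)).natDegree_eq_card_roots]
    exact natDegree_fz T e z h
  rw [h4]
  ring

/-- the resultant on a line is a polynomial -/
theorem exists_poly (hs1 : ∀ x y z, T x y z = T y x z) (hs2 : ∀ x y z, T x y z = T x z y)
    (e a b : Fin 3 → ℂ) :
    ∃ P : ℂ[X], ∀ t : ℂ, P.eval t = rho T e (t • a + b) := by
  let Fh : ℂ[X][X] := C (C (T e e e)) * X ^ 3 + C (C (3 * T e e a) * X + C (3 * T e e b)) * X ^ 2 +
    C (C (3 * T e a a) * X ^ 2 + C (6 * T e a b) * X + C (3 * T e b b)) * X +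
    C (C (T a a a) * X ^ 3 + C (3 * T a a b) * X ^ 2 + C (3 * T a b b) * X + C (T b b b))
  let Gh : ℂ[X][X] := Matrix.det ((X : ℂ[X][X]) • ((Mat T e).map C).map C +
    ((X : ℂ[X]) • (Mat T a).map C + (Mat T b).map C).map C)
  refine ⟨resultant Fh Gh 3 3, fun t => ?_⟩
  rw [← coe_evalRingHom, ← resultant_map_map, rho]
  congr 1
  · simp only [Fh, fz, Polynomial.map_add, Polynomial.map_mul, Polynomial.map_pow, map_C, map_X,
      coe_evalRingHom, eval_C, eval_add, eval_mul, eval_pow, eval_X]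
    congr 1
    · congr 1
      · congr 2
        · congr 2
          simp only [map_add, map_smul, smul_eq_mul]
          ring
      · congr 2
        simp only [map_add, map_smul, LinearMap.add_apply, LinearMap.smul_apply, smul_eq_mul]
        rw [hs2 e b a]
        ring
    · congr 1
      simp only [map_add, map_smul, LinearMap.add_apply, LinearMap.smul_apply, smul_eq_mul]
      rw [hs1 b a a, hs2 a b a, hs1 b a b, hs2 b b a, hs1 b a b]
      ring
  · simp only [Gh, gz]
    rw [← coe_mapRingHom, RingHom.map_det]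
    congr 1
    rw [Mat_lin]
    refine Matrix.ext fun j k => ?_
    simp [Matrix.map_apply, Matrix.add_apply, Matrix.smul_apply]
    ring

theorem exists_common_zero (hs1 : ∀ x y z, T x y z = T y x z) (hs2 : ∀ x y z, T x y z = T x z y)
    (e : Fin 3 → ℂ) (he : T e e e ≠ 0) :
    ∃ x ≠ 0, T x x x = 0 ∧ ∃ k ≠ 0, ∀ y, T x y k = 0 := by
  obtain ⟨i, hi⟩ : ∃ i, e i ≠ 0 := by
    by_contra hcon
    push Not at hcon
    apply he
    rw [show e = 0 from funext hcon]
    simp
  set a : Fin 3 → ℂ := Pi.single (i.succAbove 0) 1 with ha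
  set b : Fin 3 → ℂ := Pi.single (i.succAbove 1) 1 with hb
  have hai : a i = 0 := by
    rw [ha, Pi.single_apply, if_neg (Fin.ne_succAbove i 0)]
  have hbi : b i = 0 := by
    rw [hb, Pi.single_apply, if_neg (Fin.ne_succAbove i 1)]
  have hab : a (i.succAbove 1) = 0 := by
    rw [ha, Pi.single_apply, if_neg]
    intro h
    exact absurd (Fin.succAbove_right_injective h) (by decide)
  have hbb : b (i.succAbove 1) = 1 := by
    rw [hb, Pi.single_eq_same]
  have haa : a (i.succAbove 0) = 1 := by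
    rw [ha, Pi.single_eq_same]
  have fin : ∀ z : Fin 3 → ℂ, z i = 0 → z ≠ 0 → rho T e z = 0 →
      ∃ x ≠ 0, T x x x = 0 ∧ ∃ k ≠ 0, ∀ y, T x y k = 0 := by
    intro z hzi hz0 hz
    obtain ⟨w, hw1, hw2⟩ := exists_root T hs1 hs2 e z he hz
    refine ⟨w • e + z, ?_, hw1, exists_ker T _ hw2⟩
    intro h
    have h1 := congrFun h i
    simp only [Pi.add_apply, Pi.smul_apply, smul_eq_mul, Pi.zero_apply, hzi, add_zero] at h1
    have hw : w = 0 := (mul_eq_zero.1 h1).resolve_right hi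
    rw [hw, zero_smul, zero_add] at h
    exact hz0 h
  obtain ⟨P, hP⟩ := exists_poly T hs1 hs2 e a b
  obtain ⟨Q, hQ⟩ := exists_poly T hs1 hs2 e b a
  by_cases hdeg : P.degree = 0
  · obtain ⟨c, hc⟩ : ∃ c, P = C c := ⟨P.coeff 0, Polynomial.eq_C_of_degree_eq_zero hdeg⟩
    refine fin a hai (fun h => by rw [h] at haa; exact zero_ne_one haa) ?_
    have h1 : ∀ s : ℂ, s ≠ 0 → Q.eval s = (C c * X ^ 9).eval s := by
      intro s hs
      have h2 : s • b + a = s • (s⁻¹ • a + b) := by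
        rw [smul_add, smul_smul, mul_inv_cancel₀ hs, one_smul, add_comm]
      rw [hQ, h2, rho_smul T hs1 hs2 e _ he s hs, ← hP, hc]
      simp
      ring
    have h3 : Q = C c * X ^ 9 := by
      apply Polynomial.eq_of_infinite_eval_eq
      refine (Set.Infinite.mono (s := {s : ℂ | s ≠ 0}) (fun s hs => h1 s hs) ?_)
      exact (Set.finite_singleton (0 : ℂ)).infinite_compl
    have h4 := hQ 0
    rw [zero_smul, zero_add, h3] at h4
    rw [← h4]
    simp
  · obtain ⟨t, ht⟩ := IsAlgClosed.exists_root P hdeg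
    refine fin (t • a + b) (by simp [hai, hbi]) ?_ (by rw [← hP]; exact ht)
    intro h
    have h1 := congrFun h (i.succAbove 1)
    simp [hab, hbb] at h1

end Pool.Agent.Helper72.CF
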