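import Pool.Agent.Helper72.TM.Calc

/-!
# The equation `a x K_x + b y K_y = h` for entire functions of two variables
-/

open MeasureTheory Set Filter Topology

namespace Pool.Agent.Helper72.CF

/-- The linear contraction `(x, y) ↦ (e^{-at} x, e^{-bt} y)`. -/
noncomputable def con (a b t : ℝ) : ℂ × ℂ →L[ℂ] ℂ × ℂ :=
  ((Real.exp (-(a * t)) : ℂ) • ContinuousLinearMap.fst ℂ ℂ ℂ).prod
    ((Real.exp (-(b * t)) : ℂ) • ContinuousLinearMap.snd ℂ ℂ ℂ)

theorem con_apply (a b t : ℝ) (z : ℂ × ℂ) :
    con a b t z = ((Real.exp (-(a * t)) : ℂ) * z.1, (Real.exp (-(b * t)) : ℂ) * z.2) := by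
  simp [con]

theorem norm_con_apply_le {a b t : ℝ} (ht : 0 ≤ t) (z : ℂ × ℂ) :
    ‖con a b t z‖ ≤ Real.exp (-(min a b * t)) * ‖z‖ := by
  rw [con_apply, Prod.norm_def]
  have e1 : Real.exp (-(a * t)) ≤ Real.exp (-(min a b * t)) := by
    apply Real.exp_le_exp.2
    have := mul_le_mul_of_nonneg_right (min_le_left a b) ht
    linarith
  have e2 : Real.exp (-(b * t)) ≤ Real.exp (-(min a b * t)) := by
    apply Real.exp_le_exp.2
    have := mul_le_mul_of_nonneg_right (min_le_right a b) ht
    linarith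
  have h0 := Real.exp_pos (-(min a b * t))
  apply max_le
  · simp only [norm_mul, Complex.norm_real, Real.norm_eq_abs, abs_of_pos (Real.exp_pos _)]
    exact mul_le_mul e1 (norm_fst_le z) (norm_nonneg _) h0.le
  · simp only [norm_mul, Complex.norm_real, Real.norm_eq_abs, abs_of_pos (Real.exp_pos _)]
    exact mul_le_mul e2 (norm_snd_le z) (norm_nonneg _) h0.le

theorem norm_con_le {a b t : ℝ} (ht : 0 ≤ t) :
    ‖con a b t‖ ≤ Real.exp (-(min a b * t)) :=
  ContinuousLinearMap.opNorm_le_bound _ (Real.exp_pos _).le (fun z => norm_con_apply_le ht z)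

theorem continuous_con (a b : ℝ) (z : ℂ × ℂ) : Continuous fun t => con a b t z := by
  simp only [con_apply]
  fun_prop

theorem continuous_con' (a b : ℝ) : Continuous fun t => con a b t := by
  have h1 : Continuous fun t : ℝ => (Real.exp (-(a * t)) : ℂ) • ContinuousLinearMap.fst ℂ ℂ ℂ := by
    fun_prop
  have h2 : Continuous fun t : ℝ => (Real.exp (-(b * t)) : ℂ) • ContinuousLinearMap.snd ℂ ℂ ℂ := by
    fun_prop
  have h3 : (fun t => con a b t) = fun t =>
      (ContinuousLinearMap.prodₗᵢ ℂ (E := ℂ × ℂ) (F := ℂ) (G := ℂ))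
        ((Real.exp (-(a * t)) : ℂ) • ContinuousLinearMap.fst ℂ ℂ ℂ,
         (Real.exp (-(b * t)) : ℂ) • ContinuousLinearMap.snd ℂ ℂ ℂ) := rfl
  rw [h3]
  exact (LinearIsometryEquiv.continuous _).comp (h1.prodMk h2)

/-- The equation `a x K_x + b y K_y = h`, `h(0,0) = 0`, has an entire solution `K`. -/
theorem exists_solve (a b : ℝ) (ha : 0 < a) (hb : 0 < b) (h : ℂ × ℂ → ℂ)
    (hd : Differentiable ℂ h) (h0 : h 0 = 0) : ∃ K : ℂ × ℂ → ℂ, Differentiable ℂ K ∧
      ∀ z : ℂ × ℂ, fderiv ℂ K z ((a : ℂ) * z.1, (b : ℂ) * z.2) = h z := by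
  set c : ℝ := min a b with hc
  have hc0 : 0 < c := lt_min ha hb
  have hcont : Continuous (fderiv ℂ h) := Pool.Agent.Helper72.TM.continuous_fderiv hd
  -- bound of the derivative on balls
  have hM : ∀ R : ℝ, ∃ M : ℝ, 0 ≤ M ∧ ∀ z : ℂ × ℂ, ‖z‖ ≤ R → ‖fderiv ℂ h z‖ ≤ M := by
    intro R
    obtain ⟨M, hM⟩ := (isCompact_closedBall (0 : ℂ × ℂ) R).exists_bound_of_continuousOn
      hcont.continuousOn
    refine ⟨max M 0, le_max_right _ _, fun z hz => (hM z ?_).trans (le_max_left _ _)⟩
    simpa [Metric.mem_closedBall, dist_zero_right] using hz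
  have hbd : ∀ (R M : ℝ), 0 ≤ M → (∀ z : ℂ × ℂ, ‖z‖ ≤ R → ‖fderiv ℂ h z‖ ≤ M) →
      ∀ z : ℂ × ℂ, ‖z‖ ≤ R → ‖h z‖ ≤ M * ‖z‖ := by
    intro R M _ hMR z hz
    have h1 := (convex_closedBall (0 : ℂ × ℂ) R).norm_image_sub_le_of_norm_fderiv_le
      (f := h) (C := M) (x := 0) (y := z) (fun x _ => hd x)
      (fun x hx => hMR x (by simpa [Metric.mem_closedBall, dist_zero_right] using hx))
      (by simpa using (norm_nonneg z).trans hz) (by
        simpa [Metric.mem_closedBall, dist_zero_right] using hz)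
    simpa [h0] using h1
  let K : ℂ × ℂ → ℂ := fun z => ∫ t in Ioi (0 : ℝ), h (con a b t z)
  let K' : ℂ × ℂ → ℝ → (ℂ × ℂ →L[ℂ] ℂ) := fun z t =>
    (fderiv ℂ h (con a b t z)).comp (con a b t)
  have hexp : IntegrableOn (fun t : ℝ => Real.exp (-(c * t))) (Ioi 0) := by
    have := integrableOn_exp_mul_Ioi (a := -c) (by linarith) 0
    simpa [neg_mul] using this
  have hint : ∀ z, IntegrableOn (fun t : ℝ => h (con a b t z)) (Ioi 0) := by
    intro z
    obtain ⟨M, hM0, hMR⟩ := hM ‖z‖
    refine Integrable.mono' (g := fun t => M * ‖z‖ * Real.exp (-(c * t))) (hexp.const_mul _) ?_ ?_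
    · exact (hd.continuous.comp (continuous_con a b z)).aestronglyMeasurable
    · refine (ae_restrict_iff' measurableSet_Ioi).2 (ae_of_all _ fun t ht => ?_)
      have ht0 : (0 : ℝ) ≤ t := le_of_lt ht
      have h1 := norm_con_apply_le (a := a) (b := b) ht0 z
      have h3 : Real.exp (-(c * t)) ≤ 1 := by
        apply Real.exp_le_one_iff.2
        have := mul_nonneg hc0.le ht0
        linarith
      have h2 : ‖con a b t z‖ ≤ ‖z‖ := h1.trans (mul_le_of_le_one_left (norm_nonneg _) h3)
      calc ‖h (con a b t z)‖ ≤ M * ‖con a b t z‖ := hbd _ M hM0 hMR _ h2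
        _ ≤ M * (Real.exp (-(c * t)) * ‖z‖) := mul_le_mul_of_nonneg_left h1 hM0
        _ = _ := by ring
  have hK : ∀ z, HasFDerivAt K (∫ t in Ioi (0 : ℝ), K' z t) z := by
    intro z
    obtain ⟨M, hM0, hMR⟩ := hM (‖z‖ + 1)
    refine hasFDerivAt_integral_of_dominated_of_fderiv_le (𝕜 := ℂ)
      (F := fun z t => h (con a b t z)) (F' := K') (x₀ := z)
      (bound := fun t => M * Real.exp (-(c * t))) (s := Metric.ball z 1)
      (Metric.ball_mem_nhds z one_pos) ?_ (hint z) ?_ ?_ (hexp.const_mul _) ?_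
    · exact Eventually.of_forall fun x =>
        (hd.continuous.comp (continuous_con a b x)).aestronglyMeasurable
    · have h1 : Continuous (K' z) :=
        (hcont.comp (continuous_con a b z)).clm_comp (continuous_con' a b)
      exact h1.aestronglyMeasurable
    · refine (ae_restrict_iff' measurableSet_Ioi).2 (ae_of_all _ fun t ht x hx => ?_)
      have ht0 : (0 : ℝ) ≤ t := le_of_lt ht
      have hx1 : ‖x‖ ≤ ‖z‖ + 1 := by
        have := norm_le_norm_add_norm_sub' x z
        rw [Metric.mem_ball, dist_eq_norm] at hx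
        linarith
      have h3 : Real.exp (-(c * t)) ≤ 1 := by
        apply Real.exp_le_one_iff.2
        have := mul_nonneg hc0.le ht0
        linarith
      have h2 : ‖con a b t x‖ ≤ ‖z‖ + 1 :=
        ((norm_con_apply_le ht0 x).trans (mul_le_of_le_one_left (norm_nonneg _) h3)).trans hx1
      calc ‖K' x t‖ ≤ ‖fderiv ℂ h (con a b t x)‖ * ‖con a b t‖ :=
            ContinuousLinearMap.opNorm_comp_le _ _
        _ ≤ M * Real.exp (-(c * t)) :=
            mul_le_mul (hMR _ h2) (norm_con_le ht0) (norm_nonneg _) hM0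
    · refine ae_of_all _ fun t x _ => ?_
      exact (hd (con a b t x)).hasFDerivAt.comp x (con a b t).hasFDerivAt
  refine ⟨K, fun z => (hK z).differentiableAt, fun z => ?_⟩
  rw [(hK z).fderiv]
  set v : ℂ × ℂ := ((a : ℂ) * z.1, (b : ℂ) * z.2) with hv
  obtain ⟨M, hM0, hMR⟩ := hM ‖z‖
  have hK'int : IntegrableOn (K' z) (Ioi 0) := by
    refine Integrable.mono' (g := fun t => M * Real.exp (-(c * t))) (hexp.const_mul _) ?_ ?_
    · have h1 : Continuous (K' z) :=
        (hcont.comp (continuous_con a b z)).clm_comp (continuous_con' a b)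
      exact h1.aestronglyMeasurable
    · refine (ae_restrict_iff' measurableSet_Ioi).2 (ae_of_all _ fun t ht => ?_)
      have ht0 : (0 : ℝ) ≤ t := le_of_lt ht
      have h3 : Real.exp (-(c * t)) ≤ 1 := by
        apply Real.exp_le_one_iff.2
        have := mul_nonneg hc0.le ht0
        linarith
      have h2 : ‖con a b t z‖ ≤ ‖z‖ :=
        (norm_con_apply_le ht0 z).trans (mul_le_of_le_one_left (norm_nonneg _) h3)
      calc ‖K' z t‖ ≤ ‖fderiv ℂ h (con a b t z)‖ * ‖con a b t‖ :=
            ContinuousLinearMap.opNorm_comp_le _ _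
        _ ≤ M * Real.exp (-(c * t)) :=
            mul_le_mul (hMR _ h2) (norm_con_le ht0) (norm_nonneg _) hM0
  rw [ContinuousLinearMap.integral_apply hK'int]
  -- the derivative along the flow
  have hder : ∀ t : ℝ, HasDerivAt (fun t : ℝ => - h (con a b t z)) (K' z t v) t := by
    intro t
    have h1 : HasDerivAt (fun t : ℝ => con a b t z) (- con a b t v) t := by
      simp only [con_apply]
      have e1 : HasDerivAt (fun t : ℝ => ((Real.exp (-(a * t)) : ℂ) * z.1))
          (-((Real.exp (-(a * t)) : ℂ) * v.1)) t := by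
        have g1 : HasDerivAt (fun t : ℝ => Real.exp (-(a * t))) (Real.exp (-(a * t)) * (-a)) t := by
          have := ((hasDerivAt_id t).const_mul a).neg.exp
          simpa using this
        have g2 := g1.ofReal_comp.mul_const z.1
        refine g2.congr_deriv ?_
        simp only [hv]
        push_cast
        ring
      have e2 : HasDerivAt (fun t : ℝ => ((Real.exp (-(b * t)) : ℂ) * z.2))
          (-((Real.exp (-(b * t)) : ℂ) * v.2)) t := by
        have g1 : HasDerivAt (fun t : ℝ => Real.exp (-(b * t))) (Real.exp (-(b * t)) * (-b)) t := by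
          have := ((hasDerivAt_id t).const_mul b).neg.exp
          simpa using this
        have g2 := g1.ofReal_comp.mul_const z.2
        refine g2.congr_deriv ?_
        simp only [hv]
        push_cast
        ring
      exact e1.prodMk e2
    have h2 : HasFDerivAt h ((fderiv ℂ h (con a b t z)).restrictScalars ℝ) (con a b t z) :=
      (hd (con a b t z)).hasFDerivAt.restrictScalars ℝ
    have h3 := (h2.comp_hasDerivAt t h1).neg
    refine h3.congr_deriv ?_
    simp [K']
  have hlim : Tendsto (fun t : ℝ => - h (con a b t z)) atTop (𝓝 (0 : ℂ)) := by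
    have h1 : Tendsto (fun t : ℝ => con a b t z) atTop (𝓝 0) := by
      rw [tendsto_zero_iff_norm_tendsto_zero]
      have h2 : Tendsto (fun t : ℝ => Real.exp (-(c * t)) * ‖z‖) atTop (𝓝 0) := by
        have h3 : Tendsto (fun t : ℝ => Real.exp (-(c * t))) atTop (𝓝 0) := by
          refine Real.tendsto_exp_atBot.comp ?_
          exact tendsto_neg_atTop_atBot.comp (tendsto_id.const_mul_atTop hc0)
        simpa using h3.mul_const ‖z‖
      refine squeeze_zero' (Eventually.of_forall fun t => norm_nonneg _) ?_ h2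
      filter_upwards [eventually_ge_atTop (0 : ℝ)] with t ht
      exact norm_con_apply_le ht z
    have h4 : Tendsto (fun t : ℝ => - h (con a b t z)) atTop (𝓝 (- h 0)) :=
      ((hd.continuous.tendsto 0).comp h1).neg
    rwa [h0, neg_zero] at h4
  have hintv : IntegrableOn (fun t => K' z t v) (Ioi 0) :=
    hK'int.apply_continuousLinearMap v
  have := integral_Ioi_of_hasDerivAt_of_tendsto' (f := fun t : ℝ => - h (con a b t z))
    (f' := fun t => K' z t v) (a := 0) (m := 0) (fun t _ => hder t) hintv hlim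
  rw [this]
  have h5 : con a b 0 z = z := by simp [con_apply]
  rw [h5]
  ring

end Pool.Agent.Helper72.CF
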